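import Mathlib
import Pool.Agent.H13.Sun28Defs
import Pool.Agent.H13.Sun28Proof

namespace Pool.Agent.Results.MP_14414a_nt.AlternatingIntegrality

/-- Full answer to Q1: for every `n ≥ 2` the number `(-1)^(n-1) a_n` is a positive integer. -/
theorem result : ∀ n : ℕ, 2 ≤ n → ∃ m : ℕ, 0 < m ∧ (-1 : ℚ) ^ (n - 1) * a n = m :=
  main_thm

end Pool.Agent.Results.MP_14414a_nt.AlternatingIntegrality
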